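import Pool.Agent.W662.SK.Basic
import Pool.Agent.W662.SK.StmtsA

/-!
# Project SK: Bessel inequality for prefixes and for chain vectors
-/

set_option autoImplicit false

open scoped InnerProductSpace ENNReal

namespace Pool.Agent.W509.SK

open Pool.Agent.W662.SK

theorem a6a : S_A6a := by
  intro L hL η
  have htw : ∀ k, (FreeGroup.mk (L.take k)).toWord = L.take k := by
    intro k
    rw [FreeGroup.toWord_mk]
    exact FreeGroup.IsReduced.reduce_eq (List.IsChain.take hL k)
  have hinj : Set.InjOn (fun k => FreeGroup.mk (L.take k))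
      (Finset.range (L.length + 1) : Set ℕ) := by
    intro j hj k hk h
    simp only [Finset.coe_range, Set.mem_Iio] at hj hk
    have h1 := congrArg FreeGroup.toWord h
    simp only at h1
    rw [htw, htw] at h1
    have h2 := congrArg List.length h1
    rw [List.length_take, List.length_take] at h2
    omega
  have h1 : ∀ k, ‖⟪η, dl (FreeGroup.mk (L.take k))⟫_ℂ‖ ^ 2 =
      ‖η (FreeGroup.mk (L.take k))‖ ^ 2 := by
    intro k
    rw [← inner_conj_symm, RCLike.norm_conj, inner_dl]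
  simp only [h1]
  rw [← Finset.sum_image (f := fun x => ‖η x‖ ^ 2) (g := fun k => FreeGroup.mk (L.take k))]
  · exact sum_le_hasSum _ (fun _ _ => by positivity) (norm_sq_hasSum η)
  · exact hinj

theorem seq_bound (t : ℝ) (ht0 : 0 ≤ t) (ht1 : t < 1) (a b : ℕ → ℝ) (n : ℕ)
    (ha : ∀ k, 0 ≤ a k) (h0 : a 0 ≤ b 0) (hs : ∀ k < n, a (k + 1) ≤ b (k + 1) + t * a k) :
    (1 - t) * ∑ k ∈ Finset.range (n + 1), a k ^ 2 + t * a n ^ 2 ≤
      (∑ k ∈ Finset.range (n + 1), b k ^ 2) / (1 - t) := by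
  have hp : 0 < 1 - t := by linarith
  induction n with
  | zero =>
    simp only [zero_add, Finset.range_one, Finset.sum_singleton]
    rw [le_div_iff₀ hp]
    have h1 : a 0 ^ 2 ≤ b 0 ^ 2 := pow_le_pow_left₀ (ha 0) h0 2
    nlinarith [sq_nonneg (a 0), sq_nonneg (b 0)]
  | succ n ih =>
    have h1 := ih fun k hk => hs k (by omega)
    rw [Finset.sum_range_succ, Finset.sum_range_succ _ (n + 1), add_div]
    have h2 := hs n (by omega)
    have h3 : a (n + 1) ^ 2 ≤ b (n + 1) ^ 2 / (1 - t) + t * a n ^ 2 := by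
      have h4 : a (n + 1) ^ 2 ≤ (b (n + 1) + t * a n) ^ 2 := pow_le_pow_left₀ (ha _) h2 2
      have h5 : (b (n + 1) + t * a n) ^ 2 ≤ b (n + 1) ^ 2 / (1 - t) + t * a n ^ 2 := by
        rw [← sub_nonneg]
        have : b (n + 1) ^ 2 / (1 - t) + t * a n ^ 2 - (b (n + 1) + t * a n) ^ 2 =
            t * (b (n + 1) - (1 - t) * a n) ^ 2 / (1 - t) := by
          field_simp
          ring
        rw [this]
        positivity
      linarith
    nlinarith

theorem a6b (h5 : S_A5) (h6 : S_A6a) : S_A6b := by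
  intro t ht0 ht1 L hL η
  have hp : 0 < 1 - t := by linarith
  set a : ℕ → ℝ := fun k => ‖⟪η, vv t (L.take k)⟫_ℂ‖ with ha
  set b : ℕ → ℝ := fun k => ‖⟪η, dl (FreeGroup.mk (L.take k))⟫_ℂ‖ with hb
  have hc0 : 0 ≤ cs t := Real.sqrt_nonneg _
  have hc1 : cs t ≤ 1 := by
    unfold cs
    rw [Real.sqrt_le_one]
    nlinarith
  have h0 : a 0 ≤ b 0 := by
    simp only [ha, hb, List.take_zero]
    unfold vv
    have : (FreeGroup.mk ([] : List (Fin 3 × Bool))) = 1 := rfl
    rw [this, map_one]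
    exact le_rfl
  have hs : ∀ k < L.length, a (k + 1) ≤ b (k + 1) + t * a k := by
    intro k hk
    have e1 : L.take (k + 1) = L.take k ++ [L[k]] := by
      rw [List.take_append_getElem hk]
    have hr : FreeGroup.IsReduced (L.take k ++ [L[k]]) := by
      rw [← e1]
      exact List.IsChain.take hL (k + 1)
    have e2 := h5 t ht0 ht1.le (L.take k) L[k] hr
    simp only [ha, hb]
    rw [e1, e2, inner_add_right, inner_smul_right, inner_smul_right]
    refine (norm_add_le _ _).trans ?_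
    rw [norm_mul, norm_mul, Complex.norm_real, Complex.norm_real, Real.norm_of_nonneg hc0,
      Real.norm_of_nonneg ht0]
    have := mul_le_mul_of_nonneg_right hc1
      (norm_nonneg ⟪η, dl (FreeGroup.mk (L.take k ++ [L[k]]))⟫_ℂ)
    linarith
  have h7 := seq_bound t ht0 ht1 a b L.length (fun k => norm_nonneg _) h0 hs
  have h8 := h6 L hL η
  change ∑ k ∈ Finset.range (L.length + 1), b k ^ 2 ≤ ‖η‖ ^ 2 at h8
  change ∑ k ∈ Finset.range (L.length + 1), a k ^ 2 ≤ (2 / (1 - t)) ^ 2 * ‖η‖ ^ 2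
  have h9 : (1 - t) * ∑ k ∈ Finset.range (L.length + 1), a k ^ 2 ≤ ‖η‖ ^ 2 / (1 - t) := by
    have h10 : (∑ k ∈ Finset.range (L.length + 1), b k ^ 2) / (1 - t) ≤ ‖η‖ ^ 2 / (1 - t) :=
      div_le_div_of_nonneg_right h8 hp.le
    have h11 : 0 ≤ t * a L.length ^ 2 := by positivity
    linarith
  rw [le_div_iff₀ hp] at h9
  rw [div_pow, div_mul_eq_mul_div, le_div_iff₀ (by positivity)]
  nlinarith [sq_nonneg ‖η‖]

end Pool.Agent.W509.SK
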